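import Pool.Agent.CPH.Weight
import Pool.Agent.CPF.Geo

/-!
# A geodesic with many edges leaving it, sharp form
-/

set_option autoImplicit false

namespace Pool.Agent.CPH

open Pool.Agent.CPF

/-- Let `H` be connected with all degrees at least two and `2 (E - V + 1) > 3 * 4 ^ (K - 2)`. Then
some geodesic has `∑ (deg - 2) ≥ 2 K - 2`. -/
theorem exists_geo2 {V : Type} [Fintype V] (H : SimpleGraph V) (hc : H.Connected) (K : ℕ)
    (hK : 2 ≤ K) (hmin : ∀ v, 2 ≤ (H.neighborSet v).ncard)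
    (hbig : ((3 * 4 ^ (K - 2) : ℕ) : ℤ) < 2 * ((Nat.card H.edgeSet : ℤ) - Nat.card V) + 2) :
    ∃ (L : ℕ) (q : ℕ → V), (∀ i < L, H.Adj (q i) (q (i + 1))) ∧
      (∀ i ≤ L, H.dist (q 0) (q i) = i) ∧
      (2 * K - 2 : ℤ) ≤ ∑ i ∈ Finset.range (L + 1), (((H.neighborSet (q i)).ncard : ℤ) - 2) := by
  classical
  by_contra hcon
  push Not at hcon
  -- the sum of the degrees
  have hsum : 2 * (Nat.card H.edgeSet : ℤ) = ∑ v : V, ((H.neighborSet v).ncard : ℤ) := by
    rw [two_edges H]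
    exact Finset.sum_congr rfl fun v _ => (deg_sum H v).symm
  have hw : ((∑ v : V, ((H.neighborSet v).ncard - 2) : ℕ) : ℤ) =
      2 * ((Nat.card H.edgeSet : ℤ) - Nat.card V) := by
    have h1 : ((∑ v : V, ((H.neighborSet v).ncard - 2) : ℕ) : ℤ) =
        ∑ v : V, (((H.neighborSet v).ncard : ℤ) - 2) := by
      push_cast
      refine Finset.sum_congr rfl fun v _ => ?_
      have := hmin v
      omega
    rw [h1, Finset.sum_sub_distrib, ← hsum]
    simp only [Finset.sum_const, Finset.card_univ, nsmul_eq_mul]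
    rw [← Nat.card_eq_fintype_card]
    ring
  have hpos : 3 ≤ 3 * 4 ^ (K - 2) := by
    have : 1 ≤ 4 ^ (K - 2) := Nat.one_le_pow _ _ (by norm_num)
    omega
  obtain ⟨x, hx⟩ : ∃ x, 3 ≤ (H.neighborSet x).ncard := by
    by_contra hno
    push Not at hno
    have h0 : (∑ v : V, ((H.neighborSet v).ncard - 2)) = 0 := by
      refine Finset.sum_eq_zero fun v _ => ?_
      have := hno v
      omega
    rw [h0] at hw
    have : ((3 : ℕ) : ℤ) ≤ ((3 * 4 ^ (K - 2) : ℕ) : ℤ) := by exact_mod_cast hpos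
    push_cast at hw this hbig
    linarith
  have hcount := weight_sum (s := 2 * K - 3) hc hmin x hx (by
    intro v q h0 h1 h2
    have hd := geo_dist' hc h0 h1 h2
    have h3 := hcon (H.dist x v) q h1 (fun i hi => by rw [h0]; exact hd i hi)
    have h4 : ((∑ i ∈ Finset.range (H.dist x v + 1), ((H.neighborSet (q i)).ncard - 2) : ℕ) : ℤ) =
        ∑ i ∈ Finset.range (H.dist x v + 1), (((H.neighborSet (q i)).ncard : ℤ) - 2) := by
      push_cast
      refine Finset.sum_congr rfl fun i _ => ?_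
      have := hmin (q i)
      omega
    omega)
  have hpow : 3 * 2 ^ (2 * K - 3 - 1) = 3 * 4 ^ (K - 2) := by
    obtain ⟨j, rfl⟩ : ∃ j, K = j + 2 := ⟨K - 2, by omega⟩
    have h1 : 2 * (j + 2) - 3 - 1 = 2 * j := by omega
    have h2 : j + 2 - 2 = j := by omega
    rw [h1, h2, pow_mul]
    norm_num
  rw [hpow] at hcount
  have hcount' : (((∑ v : V, ((H.neighborSet v).ncard - 2)) + 2 : ℕ) : ℤ) ≤
      ((3 * 4 ^ (K - 2) : ℕ) : ℤ) := by exact_mod_cast hcount
  rw [Nat.cast_add, hw] at hcount'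
  push_cast at hcount' hbig
  linarith

end Pool.Agent.CPH
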