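import Pool.Agent.CPF.Ind
import Pool.Agent.CPF.Main
import Pool.Agent.CPH.Geo2

set_option autoImplicit false

/-!
# Cops and robbers: `K c(G) ≤ |E| - |V| + 1 + 4 ^ (K - 1)` up to rounding
-/

namespace Pool.Agent.CPH

open Pool.Agent.COPG Pool.Agent.CPF
open Classical

variable {V : Type} [Fintype V]

/-- `k` cops win on every connected territory `C` with `β(C) + B ≤ K k`. -/
def PK (G : SimpleGraph V) (K B : ℕ) : Prop :=
  ∀ C : Finset V, (G.induce (C : Set V)).Connected → ∀ k : ℕ, 1 ≤ k →
    b2 G C + 2 * B ≤ 2 * K * k → CW G (C : Set V) k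

theorem PK_one (G : SimpleGraph V) (hG : G.Connected) : PK G 1 1 := by
  intro C hC k hk h
  refine main_ind G hG 1 le_rfl _ C rfl hC k hk (Or.inl ?_)
  push_cast at h
  linarith

theorem PK_step (G : SimpleGraph V) (hG : G.Connected) (K : ℕ) (hK : 2 ≤ K) (B B' : ℕ)
    (hB : 1 ≤ B) (h' : PK G (K - 1) B')
    (harith : ∀ β k : ℕ, 2 * β ≤ 3 * 4 ^ (K - 2) → β + B ≤ K * k → β + B' ≤ (K - 1) * k) :
    PK G K B := by
  have key : ∀ n : ℕ, ∀ C : Finset V, C.card = n → (G.induce (C : Set V)).Connected →
      ∀ k : ℕ, 1 ≤ k → b2 G C + 2 * B ≤ 2 * K * k → CW G (C : Set V) k := by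
    intro n
    induction n using Nat.strong_induction_on with
    | _ n ih =>
      intro C hn hC k hk hcond
      have hb0 := b2_nonneg G C hC
      obtain ⟨m, hm⟩ := b2_even G C
      obtain ⟨β, hβ⟩ : ∃ β : ℕ, m = β := ⟨m.toNat, by omega⟩
      subst hβ
      obtain ⟨x⟩ := hC.nonempty
      by_cases hcard : C.card = 1
      · obtain ⟨v, hv⟩ := Finset.card_eq_one.1 hcard
        rw [hv, Finset.coe_singleton]
        exact CW_single hG v k hk
      have hc2 : 2 ≤ C.card := by
        have : 0 < C.card := Finset.card_pos.2 ⟨x, x.2⟩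
        omega
      by_cases hleaf : ∃ v ∈ C, dg G C v < 2
      · obtain ⟨v, hv, hdg⟩ := hleaf
        obtain ⟨u, hu, huv, hadj, huniq, hconn, hb⟩ := leaf_facts G C hC v hv hc2 hdg
        refine CW_leaf (u := u) (v := v) hu huv hadj huniq ?_
        have h1 : (C : Set V) \ {v} = ((C.erase v : Finset V) : Set V) := by simp
        rw [h1]
        exact ih _ (by rw [← hn]; exact Finset.card_erase_lt_of_mem hv) _ rfl hconn k hk
          (by linarith)
      push Not at hleaf
      by_cases hsmall : 2 * β ≤ 3 * 4 ^ (K - 2)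
      · refine h' C hC k hk ?_
        have h1 : β + B ≤ K * k := by
          have : ((β : ℤ) + B) ≤ K * k := by rw [hm] at hcond; linarith
          exact_mod_cast this
        have h2 := harith β k hsmall h1
        have h3 : ((β : ℤ) + B') ≤ ((K - 1 : ℕ) : ℤ) * k := by exact_mod_cast h2
        rw [hm]
        linarith
      push Not at hsmall
      obtain ⟨k, rfl⟩ : ∃ j, k = j + 1 := ⟨k - 1, by omega⟩
      have hbig : ((3 * 4 ^ (K - 2) : ℕ) : ℤ) <
          2 * ((Nat.card (G.induce (C : Set V)).edgeSet : ℤ) - Nat.card (C : Set V)) + 2 := by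
        have h1 := D_eq G C
        have h2 : Nat.card (C : Set V) = C.card := by
          rw [Nat.card_eq_fintype_card]; simp
        rw [h2]
        unfold b2 at hm
        rw [h1] at hm
        have h3 : ((3 * 4 ^ (K - 2) : ℕ) : ℤ) < 2 * β := by exact_mod_cast hsmall
        generalize Nat.card (G.induce (C : Set V)).edgeSet = E at hm ⊢
        push_cast at hm h3 ⊢
        linarith
      obtain ⟨L, q, hq, hd, hsum⟩ := exists_geo2 (G.induce (C : Set V)) hC K hK
        (fun v => by rw [nbr_eq]; exact hleaf v v.2) hbig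
      refine CW_geo hG C hC L q hq hd k ?_
      intro C' hsub hout hconn he
      -- the path as a finset
      have hinj : Set.InjOn (fun i => (q i : V)) (Finset.range (L + 1) : Set ℕ) := by
        intro i hi j hj hij
        have hi' : i ≤ L := by simpa [Nat.lt_succ_iff] using hi
        have hj' : j ≤ L := by simpa [Nat.lt_succ_iff] using hj
        have h1 : q i = q j := Subtype.ext hij
        have h2 := hd i hi'
        have h3 := hd j hj'
        rw [h1] at h2
        omega
      have hP : (Finset.range (L + 1)).image (fun i => (q i : V)) ⊆ C \ C' := by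
        intro z hz
        obtain ⟨i, hi, rfl⟩ := Finset.mem_image.1 hz
        have hi' : i ≤ L := by simpa [Nat.lt_succ_iff] using hi
        exact Finset.mem_sdiff.2 ⟨(q i).2, hout i hi'⟩
      have h1 := b2_drop G C C' hsub hleaf he _ hP
      rw [Finset.sum_image hinj] at h1
      have h2 : ∑ i ∈ Finset.range (L + 1),
          ((((G.induce (C : Set V)).neighborSet (q i)).ncard : ℤ) - 2) =
          ∑ i ∈ Finset.range (L + 1), ((dg G C (q i) : ℤ) - 2) :=
        Finset.sum_congr rfl fun i _ => by rw [nbr_eq]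
      rw [h2] at hsum
      have h3 := b2_nonneg G C' hconn
      have hlt : C'.card < n := by
        rw [← hn]
        refine Finset.card_lt_card ⟨hsub, fun h => ?_⟩
        exact hout 0 (Nat.zero_le _) (h (q 0).2)
      obtain ⟨m', hm'⟩ := b2_even G C'
      have h5 : b2 G C' + 2 * K ≤ b2 G C := by omega
      have h4 : b2 G C' + 2 * B ≤ 2 * K * (k : ℤ) := by
        push_cast at hcond
        linarith
      refine ih _ hlt C' rfl hconn k ?_ h4
      by_contra hk0
      obtain rfl : k = 0 := by omega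
      have : (1 : ℤ) ≤ B := by exact_mod_cast hB
      push_cast at h4
      linarith
  exact fun C hC k hk h => key _ C rfl hC k hk h

theorem PK_two (G : SimpleGraph V) (hG : G.Connected) : PK G 2 2 :=
  PK_step G hG 2 le_rfl 2 1 (by norm_num) (PK_one G hG) fun β k h1 h2 => by
    norm_num at h1 h2 ⊢
    omega

theorem PK_three (G : SimpleGraph V) (hG : G.Connected) : PK G 3 5 :=
  PK_step G hG 3 (by norm_num) 5 2 (by norm_num) (PK_two G hG) fun β k h1 h2 => by
    norm_num at h1 h2 ⊢
    omega

theorem PK_four (G : SimpleGraph V) (hG : G.Connected) : PK G 4 14 :=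
  PK_step G hG 4 (by norm_num) 14 5 (by norm_num) (PK_three G hG) fun β k h1 h2 => by
    norm_num at h1 h2 ⊢
    omega

theorem PK_all (G : SimpleGraph V) (hG : G.Connected) (K : ℕ) (hK : 1 ≤ K) :
    PK G K (4 ^ (K - 1)) := by
  induction K, hK using Nat.le_induction with
  | base => exact PK_one G hG
  | succ K hK ih =>
    refine PK_step G hG (K + 1) (by omega) (4 ^ (K + 1 - 1)) (4 ^ (K - 1))
      (Nat.one_le_pow _ _ (by norm_num)) (by simpa using ih) ?_
    intro β k h1 h2
    obtain ⟨j, rfl⟩ : ∃ j, K = j + 1 := ⟨K - 1, by omega⟩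
    have e1 : j + 1 + 1 - 2 = j := by omega
    have e2 : j + 1 + 1 - 1 = j + 1 := by omega
    have e3 : j + 1 - 1 = j := by omega
    rw [e1] at h1
    rw [e2, pow_succ] at h2
    rw [e2, e3]
    set N := 4 ^ j with hN
    -- `(j + 2) (β + N) ≤ (j + 1) (β + 4 N) ≤ (j + 1) (j + 2) k`
    have h3 : (j + 2) * (β + N) ≤ (j + 1) * (β + N * 4) := by nlinarith
    have h4 : (j + 1) * (β + N * 4) ≤ (j + 1) * ((j + 1 + 1) * k) := Nat.mul_le_mul_left _ h2
    have h5 : (j + 1) * ((j + 1 + 1) * k) = (j + 2) * ((j + 1) * k) := by ring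
    rw [h5] at h4
    exact Nat.le_of_mul_le_mul_left (h3.trans h4) (by omega)

/-- From the territories to the graph. -/
theorem copWin_of_PK (G : SimpleGraph V) (hG : G.Connected) (K B : ℕ) (hB : 1 ≤ B)
    (h : PK G K B) (k : ℕ) (hk : Nat.card G.edgeSet + 1 + B ≤ Nat.card V + K * k) :
    CopWin G k := by
  have hne : Nonempty V := hG.nonempty
  have hc := conn_top hG
  have hV : (Finset.univ : Finset V).card = Nat.card V := by
    rw [Nat.card_eq_fintype_card]; rfl
  have hE := D_univ G
  have hb : b2 G Finset.univ = 2 * ((Nat.card G.edgeSet : ℤ) + 1 - Nat.card V) := by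
    unfold b2
    rw [hE, hV]
    push_cast
    ring
  have h0 := b2_nonneg G _ hc
  rw [hb] at h0
  have hk1 : 1 ≤ k := by
    by_contra hk0
    obtain rfl : k = 0 := by omega
    omega
  have hk' : ((Nat.card G.edgeSet : ℤ) + 1 + B) ≤ Nat.card V + K * k := by exact_mod_cast hk
  have hfin := h Finset.univ hc k hk1 (by rw [hb]; linarith)
  rw [Finset.coe_univ] at hfin
  exact CW.copWin hfin

/-- `K c(G) ≤ |E| - |V| + 1 + B(K)` up to rounding. -/
theorem copWin_rank : ∃ B : ℕ → ℕ, B 1 = 1 ∧ B 2 = 2 ∧ B 3 = 5 ∧ B 4 = 14 ∧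
    (∀ K, 1 ≤ K → B K ≤ 4 ^ (K - 1)) ∧
    ∀ K : ℕ, 1 ≤ K → ∀ (V : Type) [Fintype V] (G : SimpleGraph V), G.Connected →
      ∀ k : ℕ, Nat.card G.edgeSet + 1 + B K ≤ Nat.card V + K * k → CopWin G k := by
  refine ⟨fun K => if K = 2 then 2 else if K = 3 then 5 else if K = 4 then 14 else 4 ^ (K - 1),
    by simp, by simp, by simp, by simp, ?_, ?_⟩
  · intro K hK
    by_cases h2 : K = 2
    · subst h2; norm_num
    by_cases h3 : K = 3
    · subst h3; norm_num
    by_cases h4 : K = 4
    · subst h4; norm_num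
    simp only [h2, h3, h4, if_false, le_refl]
  · intro K hK V _ G hG k h
    by_cases h2 : K = 2
    · subst h2
      exact copWin_of_PK G hG 2 2 (by norm_num) (PK_two G hG) k (by simpa using h)
    by_cases h3 : K = 3
    · subst h3
      exact copWin_of_PK G hG 3 5 (by norm_num) (PK_three G hG) k (by simpa using h)
    by_cases h4 : K = 4
    · subst h4
      exact copWin_of_PK G hG 4 14 (by norm_num) (PK_four G hG) k (by simpa using h)
    simp only [h2, h3, h4, if_false] at h
    exact copWin_of_PK G hG K (4 ^ (K - 1)) (Nat.one_le_pow _ _ (by norm_num))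
      (PK_all G hG K hK) k h

end Pool.Agent.CPH
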