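import Mathlib

set_option autoImplicit false

/-!
# The bound `C b / log b`
-/

namespace Pool.Agent.CPH

open Filter Real

theorem log_pos (b : ℕ) (hb : 4 ≤ b) : 1 ≤ Nat.log 4 b :=
  Nat.log_pos (by norm_num) hb

theorem two_mul_le (b : ℕ) (hb : 4 ≤ b) : b + 4 ^ Nat.log 4 b ≤ 2 * b := by
  have := Nat.pow_log_le_self 4 (show b ≠ 0 by omega)
  omega

/-- `log b ≤ (⌊log₄ b⌋ + 1) log 4`. -/
theorem log_le (b : ℕ) (hb : 4 ≤ b) :
    Real.log b ≤ ((Nat.log 4 b : ℝ) + 1) * Real.log 4 := by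
  have h1 : b < 4 ^ (Nat.log 4 b + 1) := Nat.lt_pow_succ_log_self (by norm_num) b
  have h2 : (b : ℝ) ≤ (4 : ℝ) ^ (Nat.log 4 b + 1) := by exact_mod_cast h1.le
  have h3 : (0 : ℝ) < b := by
    have : 0 < b := by omega
    exact_mod_cast this
  calc Real.log b ≤ Real.log ((4 : ℝ) ^ (Nat.log 4 b + 1)) := Real.log_le_log h3 h2
    _ = ((Nat.log 4 b : ℝ) + 1) * Real.log 4 := by
      rw [Real.log_pow]
      push_cast
      ring

theorem log_four_lt : Real.log 4 < 1.4 := by
  have h : Real.log 4 = 2 * Real.log 2 := by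
    rw [show (4 : ℝ) = 2 ^ 2 by norm_num, Real.log_pow]
    norm_num
  rw [h]
  have := Real.log_two_lt_d9
  linarith

theorem exists_rate2 : ∃ C : ℝ, 0 < C ∧ ∀ b : ℕ, 2 ≤ b → ∃ K k : ℕ, 1 ≤ K ∧ 1 ≤ k ∧
    b + 4 ^ K ≤ K * k ∧ (k : ℝ) ≤ C * b / Real.log b := by
  refine ⟨9, by norm_num, fun b hb => ?_⟩
  have hb2 : (2 : ℝ) ≤ b := by exact_mod_cast hb
  have hlog : 0 < Real.log b := Real.log_pos (by linarith)
  rcases Nat.lt_or_ge b 4 with h4 | h4
  · refine ⟨1, b + 4, le_refl _, by omega, by omega, ?_⟩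
    rw [le_div_iff₀ hlog]
    have h1 : Real.log b ≤ Real.log 4 := by
      refine Real.log_le_log (by linarith) ?_
      exact_mod_cast h4.le
    have h2 := log_four_lt
    push_cast
    nlinarith
  · set K := Nat.log 4 b with hK
    have hK1 : 1 ≤ K := log_pos b h4
    have hKb : K ≤ b := Nat.log_le_self 4 b
    refine ⟨K, 2 * b / K + 1, hK1, Nat.le_add_left 1 _, ?_, ?_⟩
    · have h1 := two_mul_le b h4
      have h2 := Nat.div_add_mod (2 * b) K
      have h3 := Nat.mod_lt (2 * b) (show 0 < K by omega)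
      rw [← hK] at h1
      rw [Nat.mul_add, Nat.mul_one]
      omega
    · have hK0 : (0 : ℝ) < K := by
        have : 0 < K := by omega
        exact_mod_cast this
      have hK1' : (1 : ℝ) ≤ K := by exact_mod_cast hK1
      have hKb' : (K : ℝ) ≤ b := by exact_mod_cast hKb
      have h1 : ((2 * b / K + 1 : ℕ) : ℝ) ≤ 3 * b / K := by
        push_cast
        have h2 : ((2 * b / K : ℕ) : ℝ) ≤ (2 * b : ℝ) / K := by
          have := @Nat.cast_div_le ℝ _ _ _ (2 * b) K
          push_cast at this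
          exact this
        have h3 : (1 : ℝ) ≤ b / K := by
          rw [le_div_iff₀ hK0]
          linarith
        calc ((2 * b / K : ℕ) : ℝ) + 1 ≤ (2 * b : ℝ) / K + b / K := add_le_add h2 h3
          _ = 3 * b / K := by ring
      refine le_trans h1 ?_
      rw [div_le_div_iff₀ hK0 hlog]
      have h5 := log_le b h4
      rw [← hK] at h5
      have h6 := log_four_lt
      have h7 : Real.log b ≤ 3 * K := by
        have h8 : ((K : ℝ) + 1) * Real.log 4 ≤ (2 * K) * 1.4 := by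
          have h9 : (0 : ℝ) ≤ Real.log 4 := Real.log_nonneg (by norm_num)
          nlinarith
        linarith
      have hb0 : (0 : ℝ) ≤ b := by linarith
      nlinarith [mul_le_mul_of_nonneg_left h7 hb0]

theorem rate_faces2 (C : ℝ) (hC : 0 < C) (ε : ℝ) (hε : 0 < ε) :
    ∃ c : ℝ, 0 < c ∧ ∃ g₀ : ℕ, ∀ g F : ℕ, g₀ ≤ g → (F : ℝ) ≤ c * g * Real.log g →
      ∀ b : ℕ, b + 1 = F + 2 * g → 2 ≤ b ∧ C * b / Real.log b ≤ ε * g := by
  set c : ℝ := ε / (2 * C) with hc
  have hc0 : 0 < c := by positivity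
  have h1 : ∀ᶠ g : ℕ in atTop, 2 / c ≤ Real.log g :=
    (Real.tendsto_log_atTop.comp tendsto_natCast_atTop_atTop).eventually
      (eventually_ge_atTop (2 / c))
  obtain ⟨g₁, hg₁⟩ := eventually_atTop.1 h1
  refine ⟨c, hc0, max g₁ 3, fun g F hg hF b hb => ?_⟩
  have hg1 : g₁ ≤ g := (le_max_left _ _).trans hg
  have hg3 : 3 ≤ g := (le_max_right _ _).trans hg
  have hgR : (3 : ℝ) ≤ g := by exact_mod_cast hg3
  refine ⟨by omega, ?_⟩
  have hlg : 0 < Real.log g := Real.log_pos (by linarith)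
  have hgb : (g : ℝ) ≤ b := by
    have : g ≤ b := by omega
    exact_mod_cast this
  have hlb : Real.log g ≤ Real.log b := Real.log_le_log (by linarith) hgb
  have hlb0 : 0 < Real.log b := hlg.trans_le hlb
  have hbF : (b : ℝ) ≤ F + 2 * g := by
    have : b ≤ F + 2 * g := by omega
    exact_mod_cast this
  have h2 : 2 ≤ c * Real.log g := by
    have := hg₁ g hg1
    rw [div_le_iff₀ hc0] at this
    linarith
  have h3 : (b : ℝ) ≤ 2 * c * g * Real.log g := by
    have : 2 * (g : ℝ) ≤ c * g * Real.log g := by nlinarith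
    linarith
  rw [div_le_iff₀ hlb0]
  calc C * b ≤ C * (2 * c * g * Real.log g) := mul_le_mul_of_nonneg_left h3 hC.le
    _ = ε * g * Real.log g := by
      rw [hc]
      field_simp
    _ ≤ ε * g * Real.log b := mul_le_mul_of_nonneg_left hlb (by positivity)

end Pool.Agent.CPH
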