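import Mathlib

set_option autoImplicit false

/-!
# `min_K (b + 4 ^ (K - 1)) / K ≤ 4 b / log b`
-/

namespace Pool.Agent.CPH

theorem rate (b : ℕ) (hb : 2 ≤ b) :
    ∃ K k : ℕ, 1 ≤ K ∧ b + 4 ^ (K - 1) ≤ K * k ∧ (k : ℝ) ≤ 4 * b / Real.log b := by
  set K := Nat.log 4 b + 1 with hK
  have hK1 : 1 ≤ K := by omega
  have hpow : 4 ^ (K - 1) ≤ b := by
    rw [hK, Nat.add_sub_cancel]
    exact Nat.pow_log_le_self 4 (by omega)
  have hlt : b < 4 ^ K := Nat.lt_pow_succ_log_self (by norm_num) b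
  have hdm := Nat.div_add_mod (2 * b + (K - 1)) K
  have hmod := Nat.mod_lt (2 * b + (K - 1)) (show 0 < K by omega)
  set k := (2 * b + (K - 1)) / K with hk
  refine ⟨K, k, hK1, by omega, ?_⟩
  have h1 : K * k ≤ 2 * b + K := by omega
  have h2 : (K : ℝ) * k ≤ 2 * b + K := by exact_mod_cast h1
  have hK0 : (0 : ℝ) < K := by exact_mod_cast hK1
  have hb1 : (1 : ℝ) < b := by exact_mod_cast hb
  have hlog : 0 < Real.log b := Real.log_pos hb1
  have hlogle : Real.log b ≤ b := by
    have := Real.log_le_sub_one_of_pos (show (0 : ℝ) < b by linarith)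
    linarith
  have hlog4 : Real.log 4 ≤ 3 / 2 := by
    have h4 : Real.log 4 = 2 * Real.log 2 := by
      rw [show (4 : ℝ) = 2 ^ 2 by norm_num, Real.log_pow]
      norm_num
    have := Real.log_two_lt_d9
    rw [h4]
    linarith
  have hbK : Real.log b ≤ K * (3 / 2) := by
    have h3 : (b : ℝ) ≤ 4 ^ K := by exact_mod_cast hlt.le
    have h4 := Real.log_le_log (by linarith) h3
    rw [Real.log_pow] at h4
    exact h4.trans (mul_le_mul_of_nonneg_left hlog4 hK0.le)
  rw [le_div_iff₀ hlog]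
  -- `k log b ≤ 4 b`
  have h5 : (k : ℝ) * Real.log b ≤ 4 * b := by
    have hk2 : (k : ℝ) ≤ 2 * b / K + 1 := by
      rw [← sub_le_iff_le_add, le_div_iff₀ hK0]
      nlinarith
    have h6 : (2 * (b : ℝ) / K) * Real.log b ≤ 3 * b := by
      calc (2 * (b : ℝ) / K) * Real.log b ≤ (2 * (b : ℝ) / K) * (K * (3 / 2)) :=
            mul_le_mul_of_nonneg_left hbK (by positivity)
        _ = 3 * b := by field_simp
    calc (k : ℝ) * Real.log b ≤ (2 * b / K + 1) * Real.log b :=
          mul_le_mul_of_nonneg_right hk2 hlog.le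
      _ = (2 * (b : ℝ) / K) * Real.log b + Real.log b := by ring
      _ ≤ 3 * b + b := add_le_add h6 hlogle
      _ = 4 * b := by ring
  exact h5

end Pool.Agent.CPH
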