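import Pool.Agent.CPF.Tree

/-!
# Graphs with light geodesics from a root
-/

set_option autoImplicit false

namespace Pool.Agent.CPH

open Finset Pool.Agent.CPF

variable {V : Type*} {H : SimpleGraph V}

theorem succ_le_two_pow (n : ℕ) : n + 1 ≤ 2 ^ n := by
  induction n with
  | zero => simp
  | succ n ih => rw [pow_succ]; omega

theorem root_ineq (w : ℕ) (hw : 1 ≤ w) : w + 2 ≤ 3 * 2 ^ (w - 1) := by
  obtain ⟨j, rfl⟩ : ∃ j, w = j + 1 := ⟨w - 1, by omega⟩
  have := succ_le_two_pow j
  simp only [Nat.add_sub_cancel]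
  omega

/-- Let `H` be connected with all degrees at least two, and `x` a vertex of degree at least three,
such that every geodesic from `x` has `∑ (deg - 2) ≤ s`.  Then `∑ (deg - 2) + 2 ≤ 3 * 2 ^ (s - 1)`
for the sum over all vertices. -/
theorem weight_sum [Fintype V] (hc : H.Connected) {s : ℕ}
    (hmin : ∀ v, 2 ≤ (H.neighborSet v).ncard) (x : V) (hx : 3 ≤ (H.neighborSet x).ncard)
    (hm : ∀ (v : V) (q : ℕ → V), q 0 = x → (∀ i < H.dist x v, H.Adj (q i) (q (i + 1))) →
      q (H.dist x v) = v →
      ∑ i ∈ range (H.dist x v + 1), ((H.neighborSet (q i)).ncard - 2) ≤ s) :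
    ∑ v, ((H.neighborSet v).ncard - 2) + 2 ≤ 3 * 2 ^ (s - 1) := by
  classical
  obtain ⟨par, hpar⟩ := exists_par hc x
  let w : V → ℕ := fun v => (H.neighborSet v).ncard - 2
  let S : V → ℕ := fun v => ∑ j ∈ range (H.dist x v + 1), w (par^[j] v)
  -- ancestors
  have hit : ∀ (j : ℕ) (v : V), j ≤ H.dist x v → H.dist x (par^[j] v) = H.dist x v - j := by
    intro j
    induction j with
    | zero => intro v _; simp
    | succ j ih =>
      intro v hv
      rw [Function.iterate_succ_apply']
      have h1 := ih v (by omega)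
      have h2 : par^[j] v ≠ x := by
        intro h
        rw [h, SimpleGraph.dist_self] at h1
        omega
      have h3 := (hpar _ h2).1
      omega
  have hS : ∀ v, S v ≤ s := by
    intro v
    have h1 := hm v (fun i => par^[H.dist x v - i] v) (by
        have h2 := hit (H.dist x v) v le_rfl
        rw [Nat.sub_self] at h2
        simp only [Nat.sub_zero]
        exact ((hc.dist_eq_zero_iff).1 h2).symm)
      (by
        intro i hi
        have h2 := hit (H.dist x v - (i + 1)) v (by omega)
        have h3 : par^[H.dist x v - (i + 1)] v ≠ x := by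
          intro h
          rw [h, SimpleGraph.dist_self] at h2
          omega
        have h4 := (hpar _ h3).2
        rw [← Function.iterate_succ_apply' (f := par)] at h4
        have h5 : (H.dist x v - (i + 1)).succ = H.dist x v - i := by omega
        rw [h5] at h4
        exact h4)
      (by simp)
    refine le_trans (le_of_eq ?_) h1
    simp only [S]
    rw [← sum_range_reflect (fun j => w (par^[j] v)) (H.dist x v + 1)]
    refine sum_congr rfl fun i hi => ?_
    rw [mem_range] at hi
    have h3 : H.dist x v + 1 - 1 - i = H.dist x v - i := by omega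
    simp only [h3, w]
  have hrec : ∀ v, v ≠ x → S v = w v + S (par v) := by
    intro v hv
    have h1 := (hpar v hv).1
    simp only [S]
    rw [h1, sum_range_succ']
    rw [add_comm]
    congr 1
  have hSx : S x = w x := by
    simp only [S]
    rw [SimpleGraph.dist_self]
    simp
  -- the flow
  let g : V → ℤ := fun v => 2 ^ (s - S (par v)) - 1
  -- children
  let ch : V → Finset V := fun v => univ.filter fun c => c ≠ x ∧ par c = v
  have hch : ∀ v, v ≠ x → (ch v).card + 1 ≤ (H.neighborSet v).ncard := by
    intro v hv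
    have h1 : par v ∉ ch v := by
      simp only [ch, mem_filter, mem_univ, true_and, not_and]
      intro h2 h3
      have h4 := (hpar v hv).1
      have h5 := (hpar (par v) h2).1
      rw [h3] at h5
      omega
    rw [← card_insert_of_notMem h1, ← Set.ncard_coe_finset]
    refine Set.ncard_le_ncard ?_ (Set.toFinite _)
    intro c hcc
    rw [mem_coe, mem_insert] at hcc
    rcases hcc with rfl | hcc
    · exact (hpar v hv).2.symm
    · simp only [ch, mem_filter, mem_univ, true_and] at hcc
      have := (hpar c hcc.1).2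
      rw [hcc.2] at this
      exact this
  have hchx : (ch x).card ≤ (H.neighborSet x).ncard := by
    rw [← Set.ncard_coe_finset]
    refine Set.ncard_le_ncard ?_ (Set.toFinite _)
    intro c hcc
    simp only [ch, coe_filter, mem_univ, true_and, Set.mem_ofPred_eq] at hcc
    have := (hpar c hcc.1).2
    rw [hcc.2] at this
    exact this
  have hsumch : ∀ v, ∑ c ∈ ch v, g c = (ch v).card * ((2 : ℤ) ^ (s - S v) - 1) := by
    intro v
    rw [← nsmul_eq_mul, ← sum_const]
    refine sum_congr rfl fun c hcc => ?_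
    simp only [ch, mem_filter, mem_univ, true_and] at hcc
    simp only [g]
    rw [hcc.2]
  -- the total flow
  have htot : ∑ v ∈ univ.erase x, (g v - ∑ c ∈ ch v, g c) = ∑ c ∈ ch x, g c := by
    have h1 : ∑ v, ∑ c ∈ ch v, g c = ∑ c ∈ univ.erase x, g c := by
      have h2 := sum_fiberwise (univ.erase x) par g
      rw [← h2]
      refine sum_congr rfl fun v _ => ?_
      refine sum_congr ?_ fun _ _ => rfl
      ext c
      simp [ch]
    have h3 : ∑ v, ∑ c ∈ ch v, g c =
        ∑ c ∈ ch x, g c + ∑ v ∈ univ.erase x, ∑ c ∈ ch v, g c :=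
      (add_sum_erase univ _ (mem_univ x)).symm
    rw [sum_sub_distrib]
    linarith
  have hterm : ∀ v ∈ univ.erase x, (w v : ℤ) ≤ g v - ∑ c ∈ ch v, g c := by
    intro v hv
    rw [mem_erase] at hv
    have h1 := hch v hv.1
    have h2 := hrec v hv.1
    have h3 := hS v
    have h4 : s - S (par v) = w v + (s - S v) := by omega
    have hY : (1 : ℤ) ≤ 2 ^ (s - S v) := by exact_mod_cast Nat.one_le_two_pow
    have hc1 : ((ch v).card : ℤ) ≤ w v + 1 := by
      have : (ch v).card ≤ w v + 1 := by simp only [w]; omega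
      exact_mod_cast this
    have hw : ((w v : ℤ) + 1) ≤ 2 ^ w v := by exact_mod_cast succ_le_two_pow (w v)
    rw [hsumch]
    simp only [g]
    rw [h4, pow_add]
    set Y : ℤ := 2 ^ (s - S v) with hYdef
    have e1 : ((ch v).card : ℤ) * (Y - 1) ≤ (w v + 1) * (Y - 1) :=
      mul_le_mul_of_nonneg_right hc1 (by linarith)
    have e2 : ((w v : ℤ) + 1) * Y ≤ 2 ^ w v * Y := mul_le_mul_of_nonneg_right hw (by linarith)
    linarith
  have hsum : ∑ v ∈ univ.erase x, (w v : ℤ) ≤ ∑ c ∈ ch x, g c :=
    (sum_le_sum hterm).trans htot.le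
  -- the root
  have hwx : 1 ≤ w x := by simp only [w]; omega
  have hwxs : w x ≤ s := by rw [← hSx]; exact hS x
  have hroot : ∑ c ∈ ch x, g c ≤ (w x + 2) * ((2 : ℤ) ^ (s - w x) - 1) := by
    rw [hsumch, hSx]
    have h1 : ((ch x).card : ℤ) ≤ w x + 2 := by
      have : (ch x).card ≤ w x + 2 := by simp only [w]; omega
      exact_mod_cast this
    have hY : (1 : ℤ) ≤ 2 ^ (s - w x) := by exact_mod_cast Nat.one_le_two_pow
    exact mul_le_mul_of_nonneg_right h1 (by linarith)
  have htotal : (∑ v, (w v : ℤ)) + 2 ≤ (w x + 2) * (2 : ℤ) ^ (s - w x) := by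
    rw [← add_sum_erase univ (fun v => (w v : ℤ)) (mem_univ x)]
    have := hsum.trans hroot
    linarith
  have hfin : ((w x : ℤ) + 2) * (2 : ℤ) ^ (s - w x) ≤ 3 * 2 ^ (s - 1) := by
    have h1 : ((w x : ℤ) + 2) ≤ 3 * 2 ^ (w x - 1) := by exact_mod_cast root_ineq (w x) hwx
    have h2 : s - 1 = (w x - 1) + (s - w x) := by omega
    rw [h2, pow_add, ← mul_assoc]
    exact mul_le_mul_of_nonneg_right h1 (by positivity)
  have : (((∑ v, w v) + 2 : ℕ) : ℤ) ≤ ((3 * 2 ^ (s - 1) : ℕ) : ℤ) := by
    push_cast
    exact htotal.trans hfin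
  exact_mod_cast this

end Pool.Agent.CPH
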